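import Mathlib

set_option autoImplicit false

/-!
# Abelian groups containing both mates of a latin bitrade: exponential order

There are latin bitrades `(W, B)` of size at most `12 k + 4`, with both mates embeddable in an
abelian group of order `2 ^ (k + 1)`, such that every abelian group into which `W` embeds has at
least `2 ^ k` elements.

`W` is the product of a partial latin square which forces a chain of `k` doublings
`x, 2 x, 4 x, ...` ending in `0`, with the latin square of order two; `B` is the product of the same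
partial latin square with the other latin square of order two.
-/

namespace Pool.Agent.Results.MP_afce15_co.ExponentialOrder

open Finset Filter

/-- A partial latin square: a finite set of triples (row, column, symbol) in which any two
coordinates determine the third. -/
def IsPLS (P : Finset (ℕ × ℕ × ℕ)) : Prop :=
  ∀ p ∈ P, ∀ q ∈ P, (p.1 = q.1 → p.2.1 = q.2.1 → p = q) ∧ (p.1 = q.1 → p.2.2 = q.2.2 → p = q) ∧
    (p.2.1 = q.2.1 → p.2.2 = q.2.2 → p = q)

/-- A latin bitrade `(W, B)`: two nonempty partial latin squares which fill the same cells, have the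
same symbols in each row and in each column, and have no triple in common. -/
structure IsBitrade (W B : Finset (ℕ × ℕ × ℕ)) : Prop where
  nonempty : W.Nonempty ∧ B.Nonempty
  pls : IsPLS W ∧ IsPLS B
  cells : ∀ r c, (∃ s, (r, c, s) ∈ W) ↔ ∃ s, (r, c, s) ∈ B
  rows : ∀ r s, (∃ c, (r, c, s) ∈ W) ↔ ∃ c, (r, c, s) ∈ B
  cols : ∀ c s, (∃ r, (r, c, s) ∈ W) ↔ ∃ r, (r, c, s) ∈ B
  disj : Disjoint W B

/-- `P` embeds in the abelian group `G`: there are maps `α, β, γ` of the rows, columns and symbols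
into `G`, injective on the rows, the columns and the symbols of `P`, with `α r + β c = γ s` for
every triple `(r, c, s)` of `P`. -/
def Embeds (P : Finset (ℕ × ℕ × ℕ)) (G : Type) [AddCommGroup G] : Prop :=
  ∃ α β γ : ℕ → G, Set.InjOn α {r | ∃ c s, (r, c, s) ∈ P} ∧
    Set.InjOn β {c | ∃ r s, (r, c, s) ∈ P} ∧ Set.InjOn γ {s | ∃ r c, (r, c, s) ∈ P} ∧
    ∀ r c s, (r, c, s) ∈ P → α r + β c = γ s

/-- The set of the orders of the finite abelian groups in which both mates embed. -/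
def Orders (W B : Finset (ℕ × ℕ × ℕ)) : Set ℕ :=
  {N | ∃ (G : Type) (_ : AddCommGroup G), Finite G ∧ Nat.card G = N ∧ Embeds W G ∧ Embeds B G}

/-- `m(W, B)`: the least order of a finite abelian group in which both mates embed, and infinity if
there is no such group. -/
noncomputable def minOrder (W B : Finset (ℕ × ℕ × ℕ)) : ℕ∞ := ⨅ N ∈ Orders W B, (N : ℕ∞)

/-- the partial latin square forcing `k` doublings -/
def chain (k : ℕ) : Finset (ℕ × ℕ × ℕ) :=
  ((range (k + 1)).image fun i => (i, k, i)) ∪ ((range k).image fun i => (k, i, i)) ∪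
    ((range k).image fun i => (i, i, i + 1))

theorem mem_chain {k : ℕ} {r c s : ℕ} : (r, c, s) ∈ chain k ↔
    (r ≤ k ∧ c = k ∧ s = r) ∨ (r = k ∧ c < k ∧ s = c) ∨ (r < k ∧ c = r ∧ s = r + 1) := by
  unfold chain
  simp only [mem_union, mem_image, mem_range, Prod.mk.injEq]
  constructor
  · rintro ((⟨i, hi, rfl, rfl, rfl⟩ | ⟨i, hi, rfl, rfl, rfl⟩) | ⟨i, hi, rfl, rfl, rfl⟩)
    · left; omega
    · right; left; omega
    · right; right; omega
  · rintro (⟨h1, rfl, rfl⟩ | ⟨rfl, h2, rfl⟩ | ⟨h1, rfl, rfl⟩)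
    · left; left; exact ⟨s, by omega, rfl, rfl, rfl⟩
    · left; right; exact ⟨s, by omega, rfl, rfl, rfl⟩
    · right; exact ⟨c, by omega, rfl, rfl, rfl⟩

/-- product with a latin square of order two: the symbol bit is the sum of the row bit, the column
bit and `e` -/
def dbl (P : Finset (ℕ × ℕ × ℕ)) (e : ℕ) : Finset (ℕ × ℕ × ℕ) :=
  (P ×ˢ (range 2 ×ˢ range 2)).image fun t =>
    (2 * t.1.1 + t.2.1, 2 * t.1.2.1 + t.2.2, 2 * t.1.2.2 + (t.2.1 + t.2.2 + e) % 2)

theorem mem_dbl {P : Finset (ℕ × ℕ × ℕ)} {e r c s : ℕ} : (r, c, s) ∈ dbl P e ↔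
    (r / 2, c / 2, s / 2) ∈ P ∧ s % 2 = (r % 2 + c % 2 + e) % 2 := by
  unfold dbl
  simp only [mem_image, mem_product, mem_range, Prod.mk.injEq, Prod.exists]
  constructor
  · rintro ⟨a, b, c', i, j, ⟨hP, hi, hj⟩, rfl, rfl, rfl⟩
    refine ⟨?_, by omega⟩
    have e1 : (2 * a + i) / 2 = a := by omega
    have e2 : (2 * b + j) / 2 = b := by omega
    have e3 : (2 * c' + (i + j + e) % 2) / 2 = c' := by omega
    rw [e1, e2, e3]
    exact hP
  · rintro ⟨hP, hs⟩
    exact ⟨r / 2, c / 2, s / 2, r % 2, c % 2, ⟨hP, by omega, by omega⟩, by omega, by omega,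
      by omega⟩

theorem isPLS_chain (k : ℕ) : IsPLS (chain k) := by
  rintro ⟨r, c, s⟩ hp ⟨r', c', s'⟩ hq
  rw [mem_chain] at hp hq
  refine ⟨fun h1 h2 => ?_, fun h1 h2 => ?_, fun h1 h2 => ?_⟩ <;>
  · simp only [] at h1 h2
    simp only [Prod.mk.injEq]
    omega

theorem parity {x y z : ℕ} (h : (x % 2 + z) % 2 = (y % 2 + z) % 2) (h' : x / 2 = y / 2) :
    x = y := by
  rcases Nat.mod_two_eq_zero_or_one x with hx | hx <;>
  rcases Nat.mod_two_eq_zero_or_one y with hy | hy <;>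
  rw [hx, hy] at h <;> omega

theorem isPLS_dbl {P : Finset (ℕ × ℕ × ℕ)} (h : IsPLS P) (e : ℕ) : IsPLS (dbl P e) := by
  rintro ⟨r, c, s⟩ hp ⟨r', c', s'⟩ hq
  rw [mem_dbl] at hp hq
  obtain ⟨h1, h2, h3⟩ := h _ hp.1 _ hq.1
  obtain ⟨-, hp⟩ := hp
  obtain ⟨-, hq⟩ := hq
  refine ⟨fun a b => ?_, fun a b => ?_, fun a b => ?_⟩
  · have a' : r = r' := a
    have b' : c = c' := b
    subst a'; subst b'
    have e1 : s / 2 = s' / 2 := congrArg (fun t => t.2.2) (h1 rfl rfl)
    have e2 : s = s' := by omega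
    rw [e2]
  · have a' : r = r' := a
    have b' : s = s' := b
    subst a'; subst b'
    have e1 : c / 2 = c' / 2 := congrArg (fun t => t.2.1) (h2 rfl rfl)
    have e2 : c = c' := by
      refine parity (z := r % 2 + e) ?_ e1
      have x1 : c % 2 + (r % 2 + e) = r % 2 + c % 2 + e := by ring
      have x2 : c' % 2 + (r % 2 + e) = r % 2 + c' % 2 + e := by ring
      rw [x1, x2, ← hp, ← hq]
    rw [e2]
  · have a' : c = c' := a
    have b' : s = s' := b
    subst a'; subst b'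
    have e1 : r / 2 = r' / 2 := congrArg (fun t => t.1) (h3 rfl rfl)
    have e2 : r = r' := by
      refine parity (z := c % 2 + e) ?_ e1
      have x1 : r % 2 + (c % 2 + e) = r % 2 + c % 2 + e := by ring
      have x2 : r' % 2 + (c % 2 + e) = r' % 2 + c % 2 + e := by ring
      rw [x1, x2, ← hp, ← hq]
    rw [e2]

theorem isBitrade_dbl {P : Finset (ℕ × ℕ × ℕ)} (h : IsPLS P) (hne : P.Nonempty) :
    IsBitrade (dbl P 0) (dbl P 1) := by
  obtain ⟨⟨r₀, c₀, s₀⟩, h₀⟩ := hne
  have key : ∀ e, (2 * r₀, 2 * c₀, 2 * s₀ + e % 2) ∈ dbl P e := fun e => by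
    rw [mem_dbl]
    refine ⟨?_, by omega⟩
    have e1 : (2 * r₀) / 2 = r₀ := by omega
    have e2 : (2 * c₀) / 2 = c₀ := by omega
    have e3 : (2 * s₀ + e % 2) / 2 = s₀ := by omega
    rw [e1, e2, e3]
    exact h₀
  have flip : ∀ x : ℕ, (2 * (x / 2) + (1 - x % 2)) / 2 = x / 2 := fun x => by omega
  refine ⟨⟨⟨_, key 0⟩, ⟨_, key 1⟩⟩, ⟨isPLS_dbl h 0, isPLS_dbl h 1⟩, ?_, ?_, ?_, ?_⟩
  · intro r c
    constructor
    · rintro ⟨s, hs⟩
      refine ⟨2 * (s / 2) + (1 - s % 2), ?_⟩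
      rw [mem_dbl] at hs ⊢
      rw [flip]
      exact ⟨hs.1, by omega⟩
    · rintro ⟨s, hs⟩
      refine ⟨2 * (s / 2) + (1 - s % 2), ?_⟩
      rw [mem_dbl] at hs ⊢
      rw [flip]
      exact ⟨hs.1, by omega⟩
  · intro r s
    constructor
    · rintro ⟨c, hs⟩
      refine ⟨2 * (c / 2) + (1 - c % 2), ?_⟩
      rw [mem_dbl] at hs ⊢
      rw [flip]
      exact ⟨hs.1, by omega⟩
    · rintro ⟨c, hs⟩
      refine ⟨2 * (c / 2) + (1 - c % 2), ?_⟩
      rw [mem_dbl] at hs ⊢
      rw [flip]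
      exact ⟨hs.1, by omega⟩
  · intro c s
    constructor
    · rintro ⟨r, hs⟩
      refine ⟨2 * (r / 2) + (1 - r % 2), ?_⟩
      rw [mem_dbl] at hs ⊢
      rw [flip]
      exact ⟨hs.1, by omega⟩
    · rintro ⟨r, hs⟩
      refine ⟨2 * (r / 2) + (1 - r % 2), ?_⟩
      rw [mem_dbl] at hs ⊢
      rw [flip]
      exact ⟨hs.1, by omega⟩
  · rw [Finset.disjoint_left]
    rintro ⟨r, c, s⟩ h1 h2
    rw [mem_dbl] at h1 h2
    omega

/-- the value of an index in `ZMod (2 ^ k)` -/
def val (k i : ℕ) : ZMod (2 ^ k) := ((2 ^ i : ℕ) : ZMod (2 ^ k))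

theorem val_inj {k i j : ℕ} (hi : i ≤ k) (hj : j ≤ k) (h : val k i = val k j) : i = j := by
  unfold val at h
  rw [ZMod.natCast_eq_natCast_iff'] at h
  rcases Nat.lt_or_ge i k with h1 | h1 <;> rcases Nat.lt_or_ge j k with h2 | h2
  · rw [Nat.mod_eq_of_lt (Nat.pow_lt_pow_right (by norm_num) h1),
      Nat.mod_eq_of_lt (Nat.pow_lt_pow_right (by norm_num) h2)] at h
    exact Nat.pow_right_injective (le_refl 2) h
  · have : j = k := le_antisymm hj h2
    subst this
    rw [Nat.mod_eq_of_lt (Nat.pow_lt_pow_right (by norm_num) h1), Nat.mod_self] at h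
    exact absurd h (by positivity)
  · have : i = k := le_antisymm hi h1
    subst this
    rw [Nat.mod_eq_of_lt (Nat.pow_lt_pow_right (by norm_num) h2), Nat.mod_self] at h
    exact absurd h.symm (by positivity)
  · omega

theorem val_self (k : ℕ) : val k k = 0 := by
  unfold val
  exact ZMod.natCast_self _

theorem val_succ (k i : ℕ) : val k i + val k i = val k (i + 1) := by
  unfold val
  rw [pow_succ]
  push_cast
  ring

theorem val_chain {k r c s : ℕ} (h : (r, c, s) ∈ chain k) : val k r + val k c = val k s := by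
  rw [mem_chain] at h
  rcases h with ⟨_, rfl, rfl⟩ | ⟨rfl, _, rfl⟩ | ⟨_, rfl, rfl⟩
  · rw [val_self, add_zero]
  · rw [val_self, zero_add]
  · exact val_succ _ _

theorem pair_inj {k x y e : ℕ} (hx : x / 2 ≤ k) (hy : y / 2 ≤ k)
    (h : ((val k (x / 2), ((x + e : ℕ) : ZMod 2)) : ZMod (2 ^ k) × ZMod 2) =
      (val k (y / 2), ((y + e : ℕ) : ZMod 2))) : x = y := by
  rw [Prod.mk.injEq] at h
  have h1 := val_inj hx hy h.1
  have h2 := (ZMod.natCast_eq_natCast_iff' _ _ _).1 h.2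
  omega

/-- both mates embed in the group of order `2 ^ (k + 1)` -/
theorem embeds_dbl (k e : ℕ) : Embeds (dbl (chain k) e) (ZMod (2 ^ k) × ZMod 2) := by
  refine ⟨fun x => (val k (x / 2), ((x + 0 : ℕ) : ZMod 2)),
    fun x => (val k (x / 2), ((x + 0 : ℕ) : ZMod 2)),
    fun x => (val k (x / 2), ((x + e : ℕ) : ZMod 2)), ?_, ?_, ?_, ?_⟩
  · rintro x ⟨c, s, hx⟩ y ⟨c', s', hy⟩ h
    rw [mem_dbl, mem_chain] at hx hy
    exact pair_inj (by omega) (by omega) h
  · rintro x ⟨c, s, hx⟩ y ⟨c', s', hy⟩ h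
    rw [mem_dbl, mem_chain] at hx hy
    exact pair_inj (by omega) (by omega) h
  · rintro x ⟨c, s, hx⟩ y ⟨c', s', hy⟩ h
    rw [mem_dbl, mem_chain] at hx hy
    exact pair_inj (by omega) (by omega) h
  · intro r c s h
    rw [mem_dbl] at h
    obtain ⟨h1, h2⟩ := h
    have h3 := val_chain h1
    simp only [Prod.mk_add_mk, Prod.mk.injEq]
    refine ⟨h3, ?_⟩
    rw [← Nat.cast_add, ZMod.natCast_eq_natCast_iff']
    omega

/-- an abelian group into which the first mate embeds has an element of order `2 ^ k` -/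
theorem order_lower {k : ℕ} (hk : 1 ≤ k) {G : Type} [AddCommGroup G]
    (h : Embeds (dbl (chain k) 0) G) : ∃ x : G, addOrderOf x = 2 ^ k := by
  obtain ⟨α, β, γ, hα, -, -, hs⟩ := h
  have m : ∀ {r c s : ℕ}, (r, c, s) ∈ chain k → (2 * r, 2 * c, 2 * s) ∈ dbl (chain k) 0 := by
    intro r c s hh
    rw [mem_dbl]
    have e1 : (2 * r) / 2 = r := by omega
    have e2 : (2 * c) / 2 = c := by omega
    have e3 : (2 * s) / 2 = s := by omega
    rw [e1, e2, e3]
    exact ⟨hh, by omega⟩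
  have f1 : ∀ i ≤ k, α (2 * i) + β (2 * k) = γ (2 * i) := fun i hi =>
    hs _ _ _ (m (mem_chain.2 (Or.inl ⟨hi, rfl, rfl⟩)))
  have f2 : ∀ i < k, α (2 * k) + β (2 * i) = γ (2 * i) := fun i hi =>
    hs _ _ _ (m (mem_chain.2 (Or.inr (Or.inl ⟨rfl, hi, rfl⟩))))
  have f3 : ∀ i < k, α (2 * i) + β (2 * i) = γ (2 * (i + 1)) := fun i hi =>
    hs _ _ _ (m (mem_chain.2 (Or.inr (Or.inr ⟨hi, rfl, rfl⟩))))
  set x : ℕ → G := fun i => α (2 * i) - α (2 * k) with hx
  have step : ∀ i < k, x (i + 1) = x i + x i := by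
    intro i hi
    have a1 := f1 i hi.le
    have a2 := f2 i hi
    have a3 := f3 i hi
    have a4 := f1 (i + 1) hi
    have b1 : α (2 * (i + 1)) = α (2 * i) + β (2 * i) - β (2 * k) := by
      rw [a3, ← a4]; abel
    have b2 : β (2 * i) = α (2 * i) + β (2 * k) - α (2 * k) := by
      rw [a1, ← a2]; abel
    simp only [hx]
    rw [b1, b2]
    abel
  have pw : ∀ i ≤ k, x i = 2 ^ i • x 0 := by
    intro i
    induction i with
    | zero => intro _; simp
    | succ n ih =>
      intro hn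
      rw [step n hn, ih (by omega), pow_succ, mul_smul, two_smul, smul_add]
  have hz : x k = 0 := by simp [hx]
  refine ⟨x 0, ?_⟩
  obtain ⟨n, rfl⟩ : ∃ n, k = n + 1 := ⟨k - 1, by omega⟩
  apply addOrderOf_eq_prime_pow
  · rw [← pw n (by omega)]
    intro h0
    have h1 : α (2 * n) = α (2 * (n + 1)) := sub_eq_zero.1 h0
    have h2 := hα ⟨_, _, m (mem_chain.2 (Or.inl ⟨by omega, rfl, rfl⟩))⟩
      ⟨_, _, m (mem_chain.2 (Or.inl ⟨le_rfl, rfl, rfl⟩))⟩ h1
    omega
  · rw [← pw (n + 1) le_rfl]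
    exact hz

theorem card_lower {k : ℕ} (hk : 1 ≤ k) {G : Type} [AddCommGroup G] [Finite G]
    (h : Embeds (dbl (chain k) 0) G) : 2 ^ k ≤ Nat.card G := by
  obtain ⟨x, hx⟩ := order_lower hk h
  rw [← hx]
  exact Nat.le_of_dvd Nat.card_pos (addOrderOf_dvd_natCard x)

theorem card_dbl_le (k e : ℕ) : (dbl (chain k) e).card ≤ 12 * k + 4 := by
  have h1 : (chain k).card ≤ 3 * k + 1 := by
    unfold chain
    refine (card_union_le _ _).trans ?_
    have a := card_union_le ((range (k + 1)).image fun i => (i, k, i))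
      ((range k).image fun i => (k, i, i))
    have b1 : ((range (k + 1)).image fun i => (i, k, i)).card ≤ (range (k + 1)).card :=
      card_image_le
    have b2 : ((range k).image fun i => (k, i, i)).card ≤ (range k).card := card_image_le
    have b3 : ((range k).image fun i => (i, i, i + 1)).card ≤ (range k).card := card_image_le
    simp only [card_range] at b1 b2 b3
    omega
  unfold dbl
  refine card_image_le.trans ?_
  rw [card_product, card_product, card_range]
  omega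

theorem le_card_dbl (k : ℕ) : k ≤ (dbl (chain k) 0).card := by
  have h : ((range k).image fun i => (2 * i, 2 * k, 2 * i)) ⊆ dbl (chain k) 0 := by
    intro t ht
    rw [mem_image] at ht
    obtain ⟨i, hi, rfl⟩ := ht
    rw [mem_range] at hi
    rw [mem_dbl]
    have e1 : (2 * i) / 2 = i := by omega
    have e2 : (2 * k) / 2 = k := by omega
    rw [e1, e2, mem_chain]
    refine ⟨Or.inl ⟨hi.le, rfl, rfl⟩, by omega⟩
  have h2 := card_le_card h
  rw [card_image_of_injOn, card_range] at h2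
  · exact h2
  · intro a _ b _ hab
    simp only [Prod.mk.injEq] at hab
    omega

/-- **Exponential order.** There are a constant `c > 1` and latin bitrades `(W n, B n)` whose sizes
tend to infinity, with `m(W n, B n)` finite and at least `c ^ |W n|` for every `n`. -/
theorem result : ∃ c : ℝ, 1 < c ∧ ∃ W B : ℕ → Finset (ℕ × ℕ × ℕ),
    (∀ n, IsBitrade (W n) (B n)) ∧ Tendsto (fun n => (W n).card) atTop atTop ∧
    ∀ n, ∃ m : ℕ, minOrder (W n) (B n) = (m : ℕ∞) ∧ c ^ (W n).card ≤ (m : ℝ) := by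
  refine ⟨(2 : ℝ) ^ ((1 : ℝ) / 16), Real.one_lt_rpow (by norm_num) (by norm_num),
    fun n => dbl (chain (n + 1)) 0, fun n => dbl (chain (n + 1)) 1, fun n => ?_, ?_, fun n => ?_⟩
  · exact isBitrade_dbl (isPLS_chain _) ⟨(0, n + 1, 0), mem_chain.2 (Or.inl ⟨by omega, rfl, rfl⟩)⟩
  · refine tendsto_atTop_mono (fun n => ?_) tendsto_id
    exact (Nat.le_succ n).trans (le_card_dbl (n + 1))
  · have hfin : 2 ^ (n + 1) * 2 ∈ Orders (dbl (chain (n + 1)) 0) (dbl (chain (n + 1)) 1) := by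
      refine ⟨ZMod (2 ^ (n + 1)) × ZMod 2, inferInstance, ?_, ?_, embeds_dbl _ _, embeds_dbl _ _⟩
      · have : NeZero (2 ^ (n + 1)) := ⟨by positivity⟩
        infer_instance
      · rw [Nat.card_prod, Nat.card_zmod, Nat.card_zmod]
    have hlow : ((2 ^ (n + 1) : ℕ) : ℕ∞) ≤
        minOrder (dbl (chain (n + 1)) 0) (dbl (chain (n + 1)) 1) := by
      unfold minOrder
      refine le_iInf₂ fun N hN => ?_
      obtain ⟨G, inst, hf, rfl, hW, -⟩ := hN
      exact Nat.cast_le.2 (card_lower (by omega) hW)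
    have hup : minOrder (dbl (chain (n + 1)) 0) (dbl (chain (n + 1)) 1) ≤
        ((2 ^ (n + 1) * 2 : ℕ) : ℕ∞) := iInf₂_le _ hfin
    have hne : minOrder (dbl (chain (n + 1)) 0) (dbl (chain (n + 1)) 1) ≠ ⊤ :=
      ne_top_of_le_ne_top (ENat.natCast_ne_top _) hup
    obtain ⟨m, hm⟩ := ENat.ne_top_iff_exists.1 hne
    refine ⟨m, hm.symm, ?_⟩
    rw [← hm] at hlow
    have hlow' : 2 ^ (n + 1) ≤ m := Nat.cast_le.1 hlow
    have hcard := card_dbl_le (n + 1) 0
    calc ((2 : ℝ) ^ ((1 : ℝ) / 16)) ^ (dbl (chain (n + 1)) 0).card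
        = (2 : ℝ) ^ ((1 : ℝ) / 16 * ((dbl (chain (n + 1)) 0).card : ℝ)) := by
          rw [Real.rpow_mul (by norm_num), Real.rpow_natCast]
      _ ≤ (2 : ℝ) ^ ((n + 1 : ℕ) : ℝ) := by
          apply Real.rpow_le_rpow_of_exponent_le (by norm_num)
          have h1 : ((dbl (chain (n + 1)) 0).card : ℝ) ≤ ((12 * (n + 1) + 4 : ℕ) : ℝ) :=
            Nat.cast_le.2 hcard
          push_cast at h1 ⊢
          have h2 : (0 : ℝ) ≤ (n : ℝ) := Nat.cast_nonneg n
          linarith
      _ = ((2 ^ (n + 1) : ℕ) : ℝ) := by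
          rw [Real.rpow_natCast]; push_cast; ring
      _ ≤ (m : ℝ) := Nat.cast_le.2 hlow'

end Pool.Agent.Results.MP_afce15_co.ExponentialOrder
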